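import Pool.Agent.Q248.NSF.Core

/-!
# MP_4e78b4_co: largest noisy `(k,l)`-sum-free sets in cyclic groups for interval noise

We prove Q1: for all `n ≥ 1`, `k > l ≥ 1`, `c ≥ 2` the maximum size of a
`{0,…,c-1}`-`(k,l)`-sum-free subset of `ℤ/n` is `max (0, L)`, and it is attained by an interval.
-/

namespace Pool.Agent.Results.MP_4e78b4_co.NoisySumFree

open Finset
open scoped Pointwise

/-- the interval `{a, a+1, …, a+m-1}` of `ℤ/n` -/
def interval (n : ℕ) (a : ZMod n) (m : ℕ) : Finset (ZMod n) :=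
  (range m).image (fun i : ℕ => a + (i : ZMod n))

/-- the `m`-fold sumset `m A = A + ⋯ + A` (`m` summands; `0 A = {0}`) -/
def fold {n : ℕ} : ℕ → Finset (ZMod n) → Finset (ZMod n)
  | 0, _ => {0}
  | (m + 1), A => fold m A + A

/-- `m *_C A = m A + (m-1) C` with the noise set `C = {0, 1, …, c-1}` read modulo `n` -/
def star (n c m : ℕ) (A : Finset (ZMod n)) : Finset (ZMod n) :=
  fold m A + fold (m - 1) (interval n 0 c)

/-- `A` is `C`-`(k,l)`-sum-free for `C = {0, …, c-1}` -/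
def SumFree (n k l c : ℕ) (A : Finset (ZMod n)) : Prop :=
  star n c k A ∩ star n c l A = ∅

/-- `μ^C_{k,l}(ℤ/n)` -/
noncomputable def mu (n k l c : ℕ) : ℕ :=
  sSup {s : ℕ | ∃ A : Finset (ZMod n), SumFree n k l c A ∧ A.card = s}

/-- `δ = gcd(n, k - l)` -/
def delta (n k l : ℕ) : ℤ := (Nat.gcd n (k - l) : ℕ)

/-- `χ = ⌊(n + 2(c-2)) / (k+l)⌋ - (c-2)` (division of integers by a positive integer in Lean is
the floor division) -/
def chi (n k l c : ℕ) : ℤ := ((n : ℤ) + 2 * ((c : ℤ) - 2)) / ((k : ℤ) + l) - ((c : ℤ) - 2)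

/-- `r ∈ {0, …, δ-1}`, the residue of `-kχ - (k-1)(c-2)` modulo `δ` -/
def res (n k l c : ℕ) : ℤ :=
  (-(k : ℤ) * chi n k l c - ((k : ℤ) - 1) * ((c : ℤ) - 2)) % delta n k l

/-- `L = ⌊(n + 2(c-2) - r) / (k+l)⌋ - (c-2)` -/
def bigL (n k l c : ℕ) : ℤ :=
  ((n : ℤ) + 2 * ((c : ℤ) - 2) - res n k l c) / ((k : ℤ) + l) - ((c : ℤ) - 2)

open Pool.Agent.Helper591.Kneser Pool.Agent.Q248.NSF

theorem interval_eq (n : ℕ) (a : ZMod n) (m : ℕ) : interval n a m = iv n a m := rfl

theorem fold_eq {n : ℕ} [NeZero n] (m : ℕ) (A : Finset (ZMod n)) : fold m A = sm m A := by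
  induction m with
  | zero => rfl
  | succ m ih => rw [fold, sm_succ, ih]

/-- an admissible offset bounds the length by `L` -/
theorem le_bigL {n k l c a D : ℕ} (hn : 0 < n) (hl : 1 ≤ l) (hk : l < k)
    (h1 : Nat.gcd n (k - l) ∣ D) (h2 : l * a + (l - 1) * c ≤ D)
    (h3 : D + k * a + (k - 1) * c ≤ n) : (a : ℤ) ≤ bigL n k l (c + 2) := by
  have hδ0 : 0 < Nat.gcd n (k - l) := Nat.gcd_pos_of_pos_left _ hn
  have hδle : Nat.gcd n (k - l) ≤ k - l := Nat.le_of_dvd (by omega) (Nat.gcd_dvd_right _ _)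
  have hδn : Nat.gcd n (k - l) ∣ n := Nat.gcd_dvd_left _ _
  set δ : ℤ := delta n k l with hδ
  have hδpos : 0 < δ := by rw [hδ, delta]; exact_mod_cast hδ0
  have hδle' : δ ≤ (k : ℤ) - l := by
    rw [hδ, delta, ← Nat.cast_sub hk.le]; exact_mod_cast hδle
  have hcc : ((c + 2 : ℕ) : ℤ) - 2 = c := by push_cast; ring
  set χ := chi n k l (c + 2) with hχ
  set r := res n k l (c + 2) with hr
  have hr0 : 0 ≤ r := Int.emod_nonneg _ hδpos.ne'
  have hr1 : r < δ := Int.emod_lt_of_pos _ hδpos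
  have hK : (0 : ℤ) < (k : ℤ) + l := by omega
  have hχ1 : ((n : ℤ) + 2 * c) / ((k : ℤ) + l) = χ + c := by
    rw [hχ, chi, hcc]; ring
  have h2' : (l : ℤ) * a + ((l : ℤ) - 1) * c ≤ D := by
    have : ((l - 1 : ℕ) : ℤ) = (l : ℤ) - 1 := by push_cast [Nat.cast_sub hl]; ring
    rw [← this]; exact_mod_cast h2
  have h3' : (D : ℤ) + k * a + ((k : ℤ) - 1) * c ≤ n := by
    have : ((k - 1 : ℕ) : ℤ) = (k : ℤ) - 1 := by
      rw [Nat.cast_sub (by omega)]; push_cast; ring
    rw [← this]; exact_mod_cast h3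
  have ha : (a : ℤ) ≤ χ := by
    have : (a : ℤ) + c ≤ ((n : ℤ) + 2 * c) / ((k : ℤ) + l) := by
      rw [Int.le_ediv_iff_mul_le hK]
      nlinarith
    linarith
  have hfl := Int.mul_ediv_add_emod ((n : ℤ) + 2 * c) ((k : ℤ) + l)
  rw [hχ1] at hfl
  have hm0 := Int.emod_nonneg ((n : ℤ) + 2 * c) hK.ne'
  have hL : bigL n k l (c + 2) = ((n : ℤ) + 2 * c - r) / ((k : ℤ) + l) - c := by
    rw [bigL, hcc]
  rw [hL]
  rcases lt_or_eq_of_le ha with hlt | heq
  · have : (a : ℤ) + c ≤ ((n : ℤ) + 2 * c - r) / ((k : ℤ) + l) := by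
      rw [Int.le_ediv_iff_mul_le hK]
      have e1 : ((a : ℤ) + c) * ((k : ℤ) + l) ≤ (χ - 1 + c) * ((k : ℤ) + l) :=
        mul_le_mul_of_nonneg_right (by linarith) hK.le
      have e2 : (χ - 1 + c) * ((k : ℤ) + l) = ((k : ℤ) + l) * (χ + c) - ((k : ℤ) + l) := by ring
      have e3 : r < (k : ℤ) + l := by omega
      linarith
    linarith
  · -- `a = χ`
    have hw : r ≤ (n : ℤ) - k * a - ((k : ℤ) - 1) * c - D := by
      have hw0 : 0 ≤ (n : ℤ) - k * a - ((k : ℤ) - 1) * c - D := by linarith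
      have hd : δ ∣ ((n : ℤ) - D) := by
        rw [hδ, delta]
        exact dvd_sub (by exact_mod_cast hδn) (by exact_mod_cast h1)
      have e1 : r = ((n : ℤ) - k * a - ((k : ℤ) - 1) * c - D) % δ := by
        rw [hr, res, hcc, ← hχ, ← heq, ← hδ]
        apply Int.emod_emod_of_dvd _ (dvd_refl δ) |>.symm.trans
        rw [Int.emod_emod_of_dvd _ (dvd_refl δ)]
        apply Int.ModEq.symm
        apply Int.modEq_of_dvd
        have : -(k : ℤ) * a - ((k : ℤ) - 1) * c -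
            ((n : ℤ) - k * a - ((k : ℤ) - 1) * c - D) = -((n : ℤ) - D) := by ring
        rw [this]
        exact (dvd_neg).2 hd
      rw [e1]
      have f1 := Int.mul_ediv_add_emod ((n : ℤ) - k * a - ((k : ℤ) - 1) * c - D) δ
      have f2 : 0 ≤ δ * (((n : ℤ) - k * a - ((k : ℤ) - 1) * c - D) / δ) :=
        mul_nonneg hδpos.le (Int.ediv_nonneg hw0 hδpos.le)
      linarith
    have : (a : ℤ) + c ≤ ((n : ℤ) + 2 * c - r) / ((k : ℤ) + l) := by
      rw [Int.le_ediv_iff_mul_le hK]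
      nlinarith
    linarith

/-- conversely, an admissible offset exists for every length `a ≤ L` -/
theorem exists_offset {n k l c a : ℕ} (hn : 0 < n) (hl : 1 ≤ l) (hk : l < k)
    (ha : (a : ℤ) ≤ bigL n k l (c + 2)) :
    ∃ D : ℕ, Nat.gcd n (k - l) ∣ D ∧ l * a + (l - 1) * c ≤ D ∧ D + k * a + (k - 1) * c ≤ n := by
  have hδ0 : 0 < Nat.gcd n (k - l) := Nat.gcd_pos_of_pos_left _ hn
  have hδle : Nat.gcd n (k - l) ≤ k - l := Nat.le_of_dvd (by omega) (Nat.gcd_dvd_right _ _)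
  have hδn : Nat.gcd n (k - l) ∣ n := Nat.gcd_dvd_left _ _
  set δ : ℤ := delta n k l with hδ
  have hδpos : 0 < δ := by rw [hδ, delta]; exact_mod_cast hδ0
  have hδle' : δ ≤ (k : ℤ) - l := by
    rw [hδ, delta, ← Nat.cast_sub hk.le]; exact_mod_cast hδle
  have hcc : ((c + 2 : ℕ) : ℤ) - 2 = c := by push_cast; ring
  set χ := chi n k l (c + 2) with hχ
  set r := res n k l (c + 2) with hr
  have hr0 : 0 ≤ r := Int.emod_nonneg _ hδpos.ne'
  have hr1 : r < δ := Int.emod_lt_of_pos _ hδpos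
  have hK : (0 : ℤ) < (k : ℤ) + l := by omega
  have hχ1 : ((n : ℤ) + 2 * c) / ((k : ℤ) + l) = χ + c := by
    rw [hχ, chi, hcc]; ring
  have hL : bigL n k l (c + 2) = ((n : ℤ) + 2 * c - r) / ((k : ℤ) + l) - c := by
    rw [bigL, hcc]
  rw [hL] at ha
  have ha1 : ((a : ℤ) + c) * ((k : ℤ) + l) ≤ (n : ℤ) + 2 * c - r := by
    rw [← Int.le_ediv_iff_mul_le hK]; linarith
  have haχ : (a : ℤ) ≤ χ := by
    have : (a : ℤ) + c ≤ ((n : ℤ) + 2 * c) / ((k : ℤ) + l) := by
      rw [Int.le_ediv_iff_mul_le hK]; linarith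
    linarith
  set w : ℤ := ((n : ℤ) - k * a - ((k : ℤ) - 1) * c) % δ with hw
  have hw0 : 0 ≤ w := Int.emod_nonneg _ hδpos.ne'
  have hw1 : w < δ := Int.emod_lt_of_pos _ hδpos
  have hwr : w ≤ (n : ℤ) - (k + l) * a - ((k : ℤ) + l - 2) * c := by
    rcases lt_or_eq_of_le haχ with hlt | heq
    · -- a < χ
      have e0 : (χ + c) * ((k : ℤ) + l) ≤ (n : ℤ) + 2 * c := by
        rw [← hχ1]; exact Int.ediv_mul_le _ hK.ne'
      have e1 : ((a : ℤ) + 1 + c) * ((k : ℤ) + l) ≤ (χ + c) * ((k : ℤ) + l) :=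
        mul_le_mul_of_nonneg_right (by linarith) hK.le
      nlinarith
    · have e1 : w = r := by
        rw [hw, hr, res, hcc, ← hχ, ← heq, ← hδ]
        apply Int.ModEq.symm
        apply Int.modEq_of_dvd
        have : (n : ℤ) - k * a - ((k : ℤ) - 1) * c - (-(k : ℤ) * a - ((k : ℤ) - 1) * c) = n := by
          ring
        rw [this, hδ, delta]
        exact_mod_cast hδn
      rw [e1]
      nlinarith
  -- the offset
  set D : ℤ := (n : ℤ) - k * a - ((k : ℤ) - 1) * c - w with hD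
  have hl1 : (0 : ℤ) ≤ (l : ℤ) - 1 := by omega
  have hDlow : (l : ℤ) * a + ((l : ℤ) - 1) * c ≤ D := by
    rw [hD]; linarith
  have hDnn : 0 ≤ D := le_trans (by positivity) hDlow
  have hDd : δ ∣ D := by
    rw [hD, hw]
    exact Int.dvd_self_sub_emod
  refine ⟨D.toNat, ?_, ?_, ?_⟩
  · have : (Nat.gcd n (k - l) : ℤ) ∣ (D.toNat : ℤ) := by
      rw [Int.toNat_of_nonneg hDnn]; exact hDd
    exact_mod_cast this
  · have e : ((l - 1 : ℕ) : ℤ) = (l : ℤ) - 1 := by push_cast [Nat.cast_sub hl]; ring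
    have : ((l * a + (l - 1) * c : ℕ) : ℤ) ≤ (D.toNat : ℤ) := by
      rw [Int.toNat_of_nonneg hDnn]
      push_cast [e]
      exact hDlow
    exact_mod_cast this
  · have e : ((k - 1 : ℕ) : ℤ) = (k : ℤ) - 1 := by
      rw [Nat.cast_sub (by omega)]; push_cast; ring
    have : ((D.toNat + k * a + (k - 1) * c : ℕ) : ℤ) ≤ (n : ℤ) := by
      push_cast [e]
      rw [Int.toNat_of_nonneg hDnn, hD]
      linarith
    exact_mod_cast this

/-- an admissible offset gives a sum-free interval -/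
theorem interval_sumFree {n k l c a D : ℕ} (hn : 0 < n) (hl : 1 ≤ l) (hk : l < k)
    (ha : 1 ≤ a) (h1 : Nat.gcd n (k - l) ∣ D) (h2 : l * a + (l - 1) * c ≤ D)
    (h3 : D + k * a + (k - 1) * c ≤ n) :
    ∃ y : ZMod n, SumFree n k l (c + 2) (interval n y a) := by
  haveI : NeZero n := ⟨hn.ne'⟩
  -- solve `(k - l) y = D` modulo `n`
  obtain ⟨e, he⟩ := h1
  have hbez : ((Nat.gcd n (k - l) : ℕ) : ZMod n) =
      ((k - l : ℕ) : ZMod n) * ((Nat.gcdB n (k - l) : ℤ) : ZMod n) := by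
    have := Nat.gcd_eq_gcd_ab n (k - l)
    have h : (((Nat.gcd n (k - l) : ℕ) : ℤ) : ZMod n) =
        (((n : ℤ) * Nat.gcdA n (k - l) + ((k - l : ℕ) : ℤ) * Nat.gcdB n (k - l) : ℤ) : ZMod n) := by
      rw [← this]
    push_cast at h
    rw [ZMod.natCast_self, zero_mul, zero_add] at h
    rw [h]
  set y : ZMod n := ((Nat.gcdB n (k - l) : ℤ) : ZMod n) * (e : ZMod n) with hy
  have hyD : (k : ZMod n) * y - (l : ZMod n) * y = (D : ZMod n) := by
    rw [he, Nat.cast_mul, hbez, Nat.cast_sub hk.le, hy]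
    ring
  refine ⟨y, ?_⟩
  obtain ⟨t, rfl⟩ : ∃ t, a = t + 1 := ⟨a - 1, by omega⟩
  rw [SumFree, ← Finset.disjoint_iff_inter_eq_empty, Finset.disjoint_left]
  intro z hz1 hz2
  rw [star, fold_eq, fold_eq, interval_eq, interval_eq, show c + 2 = (c + 1) + 1 by ring, sm_iv,
    sm_iv, iv_add, mem_iv] at hz1 hz2
  obtain ⟨i, hi, hiz⟩ := hz1
  obtain ⟨j, hj, hjz⟩ := hz2
  rw [← hjz] at hiz
  have e1 : ((D + i : ℕ) : ZMod n) = (j : ZMod n) := by
    push_cast
    rw [← hyD]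
    have e2 : (k : ZMod n) * y + ((k - 1 : ℕ) : ZMod n) * 0 + (i : ZMod n) =
      (l : ZMod n) * y + ((l - 1 : ℕ) : ZMod n) * 0 + (j : ZMod n) := hiz
    rw [mul_zero, mul_zero, add_zero, add_zero] at e2
    calc (k : ZMod n) * y - (l : ZMod n) * y + (i : ZMod n)
        = (k : ZMod n) * y + (i : ZMod n) - (l : ZMod n) * y := by ring
      _ = _ := by rw [e2]; ring
  rw [ZMod.natCast_eq_natCast_iff] at e1
  obtain ⟨q, hq⟩ : ∃ q, l = q + 1 := ⟨l - 1, by omega⟩
  obtain ⟨p, hp⟩ : ∃ p, k = p + 1 := ⟨k - 1, by omega⟩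
  subst hq hp
  simp only [Nat.add_sub_cancel] at *
  have f1 : j < D := by
    have : (q + 1) * (t + 1) + q * c = (q + 1) * t + q * (c + 1) + 1 := by ring
    omega
  have f2 : D + i < n := by
    have : (p + 1) * (t + 1) + p * c = (p + 1) * t + p * (c + 1) + 1 := by ring
    omega
  have f3 : D + i = j := by
    have g1 := Nat.mod_eq_of_lt f2
    have g2 := Nat.mod_eq_of_lt (show j < n by omega)
    have g3 : (D + i) % n = j % n := e1
    omega
  omega

theorem card_interval {n : ℕ} (y : ZMod n) {a : ℕ} (ha : a ≤ n) : (interval n y a).card = a := by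
  rw [interval, card_image_of_injOn, card_range]
  intro i hi j hj hij
  have h1 : (i : ZMod n) = (j : ZMod n) := add_left_cancel hij
  rw [ZMod.natCast_eq_natCast_iff] at h1
  have hi' : i < a := by simpa using hi
  have hj' : j < a := by simpa using hj
  have g1 := Nat.mod_eq_of_lt (show i < n by omega)
  have g2 := Nat.mod_eq_of_lt (show j < n by omega)
  have g3 : i % n = j % n := h1
  omega

theorem empty_sumFree (n k l c : ℕ) (hk : 1 ≤ k) : SumFree n k l c ∅ := by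
  rcases Nat.eq_zero_or_pos n with rfl | hn
  · obtain ⟨p, rfl⟩ : ∃ p, k = p + 1 := ⟨k - 1, by omega⟩
    rw [SumFree, star, fold, add_empty, empty_add, empty_inter]
  · obtain ⟨p, rfl⟩ : ∃ p, k = p + 1 := ⟨k - 1, by omega⟩
    rw [SumFree, star, fold, add_empty, empty_add, empty_inter]

/-- **Q1 of MP_4e78b4_co.** For all `n ≥ 1`, `k > l ≥ 1` and `c ≥ 2` the maximum size of a
`{0,…,c-1}`-`(k,l)`-sum-free set in `ℤ/n` is `max (0, L)`, and it is attained by an interval. -/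
theorem result (n k l c : ℕ) (hn : 1 ≤ n) (hl : 1 ≤ l) (hk : l < k) (hc : 2 ≤ c) :
    (mu n k l c : ℤ) = max 0 (bigL n k l c) ∧
    (∀ A : Finset (ZMod n), SumFree n k l c A → A.card ≤ mu n k l c) ∧
    ∃ y : ZMod n, SumFree n k l c (interval n y (mu n k l c)) ∧
      (interval n y (mu n k l c)).card = mu n k l c := by
  haveI : NeZero n := ⟨by omega⟩
  obtain ⟨c, rfl⟩ : ∃ c', c = c' + 2 := ⟨c - 2, by omega⟩
  -- upper bound
  have hup : ∀ A : Finset (ZMod n), SumFree n k l (c + 2) A →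
      (A.card : ℤ) ≤ max 0 (bigL n k l (c + 2)) := by
    intro A hA
    rcases A.eq_empty_or_nonempty with rfl | hne
    · simp
    · rw [SumFree, ← Finset.disjoint_iff_inter_eq_empty, star, star, fold_eq, fold_eq, fold_eq,
        fold_eq] at hA
      obtain ⟨a, D, h0, h1, h2, h3⟩ := core hl hk hne hA
      have h4 := le_bigL hn hl hk h1 h2 h3
      exact le_trans (le_trans (by exact_mod_cast h0) h4) (le_max_right _ _)
  -- the candidate
  set M : ℕ := (max 0 (bigL n k l (c + 2))).toNat with hM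
  have hMz : (M : ℤ) = max 0 (bigL n k l (c + 2)) := Int.toNat_of_nonneg (le_max_left _ _)
  have hex : ∃ y : ZMod n, SumFree n k l (c + 2) (interval n y M) ∧ (interval n y M).card = M := by
    rcases Nat.eq_zero_or_pos M with h0 | hpos
    · refine ⟨0, ?_, ?_⟩
      · rw [h0]
        have : interval n 0 0 = ∅ := by rw [interval, range_zero, image_empty]
        rw [this]
        exact empty_sumFree n k l (c + 2) (by omega)
      · exact card_interval 0 (by omega)
    · have h1 : (M : ℤ) ≤ bigL n k l (c + 2) := by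
        rw [hMz]
        rcases max_choice (0 : ℤ) (bigL n k l (c + 2)) with h | h
        · rw [h] at hMz; omega
        · rw [h]
      obtain ⟨D, g1, g2, g3⟩ := exists_offset hn hl hk h1
      obtain ⟨y, hy⟩ := interval_sumFree hn hl hk hpos g1 g2 g3
      refine ⟨y, hy, card_interval y ?_⟩
      have : M ≤ k * M := Nat.le_mul_of_pos_left _ (by omega)
      omega
  have hbdd : BddAbove {s : ℕ | ∃ A : Finset (ZMod n), SumFree n k l (c + 2) A ∧ A.card = s} := by
    refine ⟨M, ?_⟩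
    rintro s ⟨A, hA, rfl⟩
    have := hup A hA
    rw [← hMz] at this
    exact_mod_cast this
  have hmu : mu n k l (c + 2) = M := by
    apply le_antisymm
    · obtain ⟨y, h1, h2⟩ := hex
      have hne : {s : ℕ | ∃ A : Finset (ZMod n), SumFree n k l (c + 2) A ∧ A.card = s}.Nonempty :=
        ⟨M, _, h1, h2⟩
      apply csSup_le hne
      rintro s ⟨A, hA, rfl⟩
      have := hup A hA
      rw [← hMz] at this
      exact_mod_cast this
    · obtain ⟨y, h1, h2⟩ := hex
      exact le_csSup hbdd ⟨_, h1, h2⟩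
  rw [hmu]
  refine ⟨hMz, ?_, hex⟩
  intro A hA
  have := hup A hA
  rw [← hMz] at this
  exact_mod_cast this

end Pool.Agent.Results.MP_4e78b4_co.NoisySumFree
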